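import Pool.Agent.Lib_MP_bfde15.Det

/-!
# Mutually Pythagorean sets in boxes
-/

set_option autoImplicit false

namespace Pool.Agent.Results.MP_bfde15_nt.BoxInequality

open Pool.Agent.Lib_MP_bfde15

/-- **Result.** Let `X`, `Y` be mutually Pythagorean, `n ≥ 1`, and let `X` have at least `n + 1` elements in `[a, a + L]`, `Y` at least
`n + 1` elements in `[b, b + L']`, where `L ≤ a` and `L' ≤ b`. Then
`(a ^ 2 + b ^ 2) ^ n ≤ n ^ 2 * 4 ^ (n - 1) * (8 * L * L') ^ (n + 1)`. -/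
theorem result (X Y : Set ℕ) (h : MPyth X Y) (a b L L' n : ℕ) (hn : 1 ≤ n) (hL : L ≤ a) (hL' : L' ≤ b)
    (hX : ((n + 1 : ℕ) : ℕ∞) ≤ (X ∩ Set.Icc a (a + L)).encard) (hY : ((n + 1 : ℕ) : ℕ∞) ≤ (Y ∩ Set.Icc b (b + L')).encard) :
    (a ^ 2 + b ^ 2) ^ n ≤ n ^ 2 * 4 ^ (n - 1) * (8 * L * L') ^ (n + 1) := by
  classical
  have hfX : (X ∩ Set.Icc a (a + L)).Finite := (Set.finite_Icc a (a + L)).subset Set.inter_subset_right
  have hfY : (Y ∩ Set.Icc b (b + L')).Finite := (Set.finite_Icc b (b + L')).subset Set.inter_subset_right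
  rw [hfX.encard_eq_coe_toFinset_card] at hX
  rw [hfY.encard_eq_coe_toFinset_card] at hY
  exact box h hfX.toFinset hfY.toFinset a b L L' n (by simp) (by simp) hn (by exact_mod_cast hX) (by exact_mod_cast hY)
    (fun x hx => by
      rw [Set.Finite.mem_toFinset] at hx
      exact hx.2)
    (fun y hy => by
      rw [Set.Finite.mem_toFinset] at hy
      exact hy.2) hL hL'

end Pool.Agent.Results.MP_bfde15_nt.BoxInequality
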