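import Pool.Agent.Lib_MP_bfde15.Det

/-!
# Mutually Pythagorean sets in short intervals
-/

set_option autoImplicit false

namespace Pool.Agent.Results.MP_bfde15_nt.ShortIntervals

open Pool.Agent.Lib_MP_bfde15

/-- **Result.** Let `X`, `Y` be mutually Pythagorean and let `X` have at least `k` elements. If
`4 ^ (k + 1) * L ^ (k + 2) < M ^ k`, then `Y` has at most `k + 1` elements in the interval `[M, M + L]`. -/
theorem result (X Y : Set ℕ) (h : MPyth X Y) (k M L : ℕ) (hX : (k : ℕ∞) ≤ X.encard)
    (hL : 4 ^ (k + 1) * L ^ (k + 2) < M ^ k) : (Y ∩ Set.Icc M (M + L)).encard ≤ k + 1 := by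
  classical
  obtain ⟨A', hA', hc⟩ := Set.exists_subset_encard_eq hX
  have hf : A'.Finite := Set.finite_of_encard_eq_coe hc
  have hfY : (Y ∩ Set.Icc M (M + L)).Finite := (Set.finite_Icc M (M + L)).subset Set.inter_subset_right
  have hcA : hf.toFinset.card = k := by
    rw [hf.encard_eq_coe_toFinset_card] at hc
    exact_mod_cast hc
  have h1 := short h hf.toFinset hfY.toFinset M L (by simpa using hA') (by simp) (fun y hy => by
    rw [Set.Finite.mem_toFinset] at hy
    exact hy.2) (by rw [hcA]; exact hL)
  rw [hcA] at h1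
  rw [hfY.encard_eq_coe_toFinset_card]
  exact_mod_cast h1

end Pool.Agent.Results.MP_bfde15_nt.ShortIntervals
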