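import Pool.Agent.Lib_MP_bfde15.SieveC

/-!
# The trade-off between the sizes of mutually Pythagorean sets
-/

set_option autoImplicit false

namespace Pool.Agent.Results.MP_bfde15_nt.SieveTradeoff

open Pool.Agent.Lib_MP_bfde15

/-- **Result.** Let `X`, `Y` be mutually Pythagorean, `m ∈ X ∪ Y` and `r ≥ 1`. Then `X` has at most `10 ^ 7 r (log m) ^ (1 / r)`
elements, or `Y` has at most `10 ^ 7 r ^ 2 log m` elements. -/
theorem result (X Y : Set ℕ) (h : MPyth X Y) (m : ℕ) (hm : m ∈ X ∪ Y) (r : ℕ) (hr : 1 ≤ r) :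
    (X.Finite ∧ (X.ncard : ℝ) ≤ 10 ^ 7 * r * Real.log m ^ (1 / (r : ℝ))) ∨
      (Y.Finite ∧ (Y.ncard : ℝ) ≤ 10 ^ 7 * r ^ 2 * Real.log m) := by
  classical
  by_contra hcon
  rw [not_or] at hcon
  obtain ⟨h1, h2⟩ := hcon
  have key : ∀ (S : Set ℕ) (R : ℝ), ¬ (S.Finite ∧ (S.ncard : ℝ) ≤ R) → ∃ A : Finset ℕ, (A : Set ℕ) ⊆ S ∧ R < A.card := by
    intro S R hS
    by_cases hf : S.Finite
    · refine ⟨hf.toFinset, by simp, ?_⟩
      rw [← Set.ncard_eq_toFinset_card S hf]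
      exact not_le.1 fun h3 => hS ⟨hf, h3⟩
    · obtain ⟨A, hA, hc⟩ := Set.Infinite.exists_subset_card_eq hf (⌊R⌋₊ + 1)
      refine ⟨A, hA, ?_⟩
      rw [hc]
      push_cast
      exact Nat.lt_floor_add_one R
  obtain ⟨A, hA, hcA⟩ := key X _ h1
  obtain ⟨B, hB, hcB⟩ := key Y _ h2
  rcases tradeoff X Y h m hm r hr A B hA hB with h4 | h4 <;> linarith

end Pool.Agent.Results.MP_bfde15_nt.SieveTradeoff
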