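import Pool.Agent.Lib_MP_bfde15.Det

/-!
# Sparse mutually Pythagorean sets
-/

set_option autoImplicit false

namespace Pool.Agent.Results.MP_bfde15_nt.SparseSets

open Pool.Agent.Lib_MP_bfde15

/-- **Result.** Let `X`, `Y` be mutually Pythagorean, `lam > 1`, and let every interval `[u, lam u]` contain at most `t ≥ 1`
elements of `X`. For every `m ∈ X ∪ Y`, one of the sets `X`, `Y` has at most `10 √(t log m / log lam) + t` elements. -/
theorem result (X Y : Set ℕ) (h : MPyth X Y) (lam : ℝ) (t : ℕ) (hlam : 1 < lam) (ht : 1 ≤ t)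
    (hX : ∀ u : ℝ, {x : ℕ | x ∈ X ∧ u ≤ x ∧ (x : ℝ) ≤ lam * u}.encard ≤ t) (m : ℕ) (hm : m ∈ X ∪ Y) :
    (X.Finite ∧ (X.ncard : ℝ) ≤ 10 * √(t * (Real.log m / Real.log lam)) + t) ∨
      (Y.Finite ∧ (Y.ncard : ℝ) ≤ 10 * √(t * (Real.log m / Real.log lam)) + t) := by
  classical
  by_contra hcon
  rw [not_or] at hcon
  obtain ⟨h1, h2⟩ := hcon
  set R := 10 * √(t * (Real.log m / Real.log lam)) + t with hR
  have key : ∀ S : Set ℕ, ¬ (S.Finite ∧ (S.ncard : ℝ) ≤ R) → ∃ A : Finset ℕ, (A : Set ℕ) ⊆ S ∧ R < A.card := by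
    intro S hS
    by_cases hf : S.Finite
    · refine ⟨hf.toFinset, by simp, ?_⟩
      rw [← Set.ncard_eq_toFinset_card S hf]
      exact not_le.1 fun h3 => hS ⟨hf, h3⟩
    · obtain ⟨A, hA, hc⟩ := Set.Infinite.exists_subset_card_eq hf (⌊R⌋₊ + 1)
      refine ⟨A, hA, ?_⟩
      rw [hc]
      push_cast
      exact Nat.lt_floor_add_one R
  obtain ⟨A, hA, hcA⟩ := key X h1
  obtain ⟨B, hB, hcB⟩ := key Y h2
  have h3 := sparse h lam t hlam ht (fun u F hF => by
    have h4 : ((F : Set ℕ)).encard ≤ t := (Set.encard_le_encard fun x hx => hF x hx).trans (hX u)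
    rw [Set.encard_coe_eq_coe_finsetCard] at h4
    exact_mod_cast h4) m hm A B hA hB
  rw [← hR, Nat.cast_min] at h3
  rcases min_le_iff.1 h3 with h4 | h4 <;> linarith

end Pool.Agent.Results.MP_bfde15_nt.SparseSets
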